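import Pool.Agent.Y933.KE.DiophP

/-!
# Multiples of powers `p ^ N` in base `q`: the diophantine input beyond `p ^ N`
-/

set_option autoImplicit false

namespace Pool.Agent.K4H18.DM

open Finset Real
open Pool.Agent.Y933.KE (gap)

theorem powers_far2 {p q : ℕ} (hp : 2 ≤ p) (hq : 2 ≤ q) (hpq : p.Coprime q) (k : ℕ) (A δ : ℝ)
    (hδ : 0 < δ) (hδ3 : 3 * δ ≤ 1) :
    ∃ η : ℝ, 0 < η ∧ ∃ L0 : ℕ, ∀ L : ℕ, L0 ≤ L → ∀ (N J : ℕ) (n : Fin k → ℕ) (h : Fin k → ℤ)
      (P : ℤ), (N : ℝ) ≤ A * L → (∀ i, (n i : ℝ) ≤ A * L) → (q : ℝ) ^ J ≤ (p : ℝ) ^ N * exp ((1 - 2 * δ) * L) →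
      (∀ i, |(h i : ℝ)| ≤ exp (η * L)) → ¬ (q : ℤ) ^ J ∣ ∑ i, h i * (q : ℤ) ^ n i →
      exp (-((1 - δ) * L)) <
        |(p : ℝ) ^ N * (((∑ i, h i * (q : ℤ) ^ n i : ℤ) : ℝ) / (q : ℝ) ^ J) - P| := by
  have hqR : (2 : ℝ) ≤ q := by exact_mod_cast hq
  have hq0 : (0 : ℝ) < q := by linarith
  have hpR : (2 : ℝ) ≤ p := by exact_mod_cast hp
  have hp0 : (0 : ℝ) < p := by linarith
  have hlq : 0 < log (q : ℝ) := Real.log_pos (by linarith)
  have hlp : 0 < log (p : ℝ) := Real.log_pos (by linarith)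
  have hpqI : IsCoprime (q : ℤ) (p : ℤ) := Nat.isCoprime_iff_coprime.2 hpq.symm
  -- parameters
  set κ : ℝ := δ / (4 * (k + 1) * log q) with hκ
  have hk0 : (0 : ℝ) ≤ k := Nat.cast_nonneg k
  have hκ0 : 0 < κ := by positivity
  set C0 : ℝ := |A| + (|A| * log p + 1) / log q + 1 with hC0
  have hC01 : |A| ≤ C0 := by
    have : 0 ≤ (|A| * log p + 1) / log q := by positivity
    linarith
  set η1 : ℝ := min (δ / 2) (κ * log q) with hη1
  have hη10 : 0 < η1 := lt_min (by positivity) (by positivity)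
  have hη1a : η1 ≤ δ / 2 := min_le_left _ _
  have hη1b : η1 ≤ κ * log q := min_le_right _ _
  obtain ⟨ε, hε, n0, hfin⟩ := Pool.Agent.TH932.S2.Pw.fin hp hq hpqI k C0 η1 hη10
  refine ⟨ε, hε, max n0 (max 1 ⌈1 / κ⌉₊), fun L hL N J n h P hN hn hJ hh hdvd => ?_⟩
  have hL1 : n0 ≤ L := le_of_max_le_left hL
  have hL2 : 1 ≤ L := le_of_max_le_left (le_of_max_le_right hL)
  have hL3 : ⌈1 / κ⌉₊ ≤ L := le_of_max_le_right (le_of_max_le_right hL)
  have hLR : (1 : ℝ) ≤ L := by exact_mod_cast hL2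
  have hLR0 : (0 : ℝ) ≤ L := by linarith
  have hκL : 1 ≤ κ * L := by
    have h1 : 1 / κ ≤ L := (Nat.le_ceil _).trans (by exact_mod_cast hL3)
    rw [div_le_iff₀ hκ0] at h1
    linarith
  by_contra hcon
  push Not at hcon
  set ℓ : ℤ := ∑ i, h i * (q : ℤ) ^ n i with hℓ
  -- the scale
  set t : ℕ := ⌈κ * L⌉₊ with ht
  have ht1 : κ * L ≤ t := Nat.le_ceil _
  have ht2 : (t : ℝ) ≤ 2 * (κ * L) := by
    have h1 := Nat.ceil_lt_add_one (a := κ * L) (by positivity)
    rw [← ht] at h1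
    linarith
  obtain ⟨s, hsk, hs⟩ := gap (fun r => J - n r) (t := t)
  have hst : ((s * t : ℕ) : ℝ) * log q ≤ δ * L / 2 := by
    have h1 : (s : ℝ) ≤ k := by exact_mod_cast hsk
    push_cast
    calc (s : ℝ) * t * log q ≤ (k + 1) * (2 * (κ * L)) * log q := by
          gcongr
          linarith
      _ = δ * L / 2 := by
          rw [hκ]
          field_simp
          ring
  have hpow : ∀ m : ℕ, (q : ℝ) ^ m = exp (m * log q) := fun m => by
    rw [mul_comm, Real.exp_mul, Real.exp_log hq0, Real.rpow_natCast]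
  have hqst : (q : ℝ) ^ (s * t) ≤ exp (δ * L / 2) := by
    rw [hpow]
    exact exp_le_exp.2 hst
  classical
  set ch : Fin k → ℤ := fun r => if (s + 1) * t < J - n r then h r else 0 with hch
  set hi : ℤ := ∑ r, ch r * (q : ℤ) ^ n r with hhi
  -- the low part
  have hlow : ∃ a : ℤ, (q : ℤ) ^ (s * t) * (ℓ - hi) = a * (q : ℤ) ^ J := by
    have h1 : ∀ r, ∃ a : ℤ, (q : ℤ) ^ (s * t) * (h r * (q : ℤ) ^ n r - ch r * (q : ℤ) ^ n r) =
        a * (q : ℤ) ^ J := by
      intro r
      by_cases hr : (s + 1) * t < J - n r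
      · refine ⟨0, ?_⟩
        simp only [hch]
        rw [if_pos hr]
        ring
      · have h2 : J - n r ≤ s * t := by
          rcases hs r with h3 | h3
          · exact h3
          · exact absurd h3 hr
        obtain ⟨j, hj⟩ : ∃ j, s * t + n r = J + j := ⟨s * t + n r - J, by omega⟩
        refine ⟨h r * (q : ℤ) ^ j, ?_⟩
        simp only [hch]
        rw [if_neg hr, zero_mul, sub_zero]
        calc (q : ℤ) ^ (s * t) * (h r * (q : ℤ) ^ n r) = h r * (q : ℤ) ^ (s * t + n r) := by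
              rw [pow_add]; ring
          _ = h r * (q : ℤ) ^ j * (q : ℤ) ^ J := by rw [hj, pow_add]; ring
    choose a ha using h1
    refine ⟨∑ r, a r, ?_⟩
    rw [sum_mul, ← sum_congr rfl fun r _ => ha r, ← mul_sum, hℓ, hhi, ← sum_sub_distrib]
  obtain ⟨a, ha⟩ := hlow
  have hqJ : (0 : ℝ) < (q : ℝ) ^ J := by positivity
  have hqJZ : (q : ℤ) ^ J ≠ 0 := by positivity
  by_cases h0 : hi = 0
  · -- only low places
    rw [h0, sub_zero] at ha
    have h1 : (q : ℝ) ^ (s * t) * ((p : ℝ) ^ N * ((ℓ : ℝ) / (q : ℝ) ^ J) - P) =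
        (((p : ℤ) ^ N * a - (q : ℤ) ^ (s * t) * P : ℤ) : ℝ) := by
      have h2 : (q : ℝ) ^ (s * t) * ℓ = a * (q : ℝ) ^ J := by exact_mod_cast ha
      push_cast
      rw [mul_sub]
      congr 1
      calc (q : ℝ) ^ (s * t) * ((p : ℝ) ^ N * ((ℓ : ℝ) / (q : ℝ) ^ J)) =
            (p : ℝ) ^ N * (((q : ℝ) ^ (s * t) * ℓ) / (q : ℝ) ^ J) := by ring
        _ = (p : ℝ) ^ N * a := by
            rw [h2]
            field_simp
    have h2 : ((p : ℤ) ^ N * a - (q : ℤ) ^ (s * t) * P : ℤ) ≠ 0 := by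
      intro h3
      apply hdvd
      have h4 : (q : ℤ) ^ J ∣ (p : ℤ) ^ N * ℓ := by
        refine ⟨P, ?_⟩
        have h5 : (q : ℤ) ^ (s * t) ≠ 0 := by positivity
        apply mul_left_cancel₀ h5
        calc (q : ℤ) ^ (s * t) * ((p : ℤ) ^ N * ℓ) = (p : ℤ) ^ N * ((q : ℤ) ^ (s * t) * ℓ) := by
              ring
          _ = (p : ℤ) ^ N * a * (q : ℤ) ^ J := by rw [ha]; ring
          _ = (q : ℤ) ^ (s * t) * P * (q : ℤ) ^ J := by
              rw [sub_eq_zero.1 h3]
          _ = (q : ℤ) ^ (s * t) * ((q : ℤ) ^ J * P) := by ring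
      exact (IsCoprime.pow hpqI).dvd_of_dvd_mul_left h4
    have h3 : (1 : ℝ) ≤ (q : ℝ) ^ (s * t) *
        |(p : ℝ) ^ N * ((ℓ : ℝ) / (q : ℝ) ^ J) - P| := by
      have h4 : |(q : ℝ) ^ (s * t) * ((p : ℝ) ^ N * ((ℓ : ℝ) / (q : ℝ) ^ J) - P)| =
          (q : ℝ) ^ (s * t) * |(p : ℝ) ^ N * ((ℓ : ℝ) / (q : ℝ) ^ J) - P| := by
        rw [abs_mul, abs_of_pos (by positivity)]
      rw [← h4, h1]
      exact_mod_cast Int.one_le_abs h2
    have h4 : (q : ℝ) ^ (s * t) * |(p : ℝ) ^ N * ((ℓ : ℝ) / (q : ℝ) ^ J) - P| ≤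
        exp (δ * L / 2) * exp (-((1 - δ) * L)) := by gcongr
    have h5 : exp (δ * L / 2) * exp (-((1 - δ) * L)) < 1 := by
      rw [← Real.exp_add, Real.exp_lt_one_iff]
      have h6 : 0 < δ * L := by positivity
      have h7 : 3 * δ * L ≤ 1 * L := by gcongr
      linarith
    linarith
  · -- some high place
    obtain ⟨r0, hr0⟩ : ∃ r, (s + 1) * t < J - n r := by
      by_contra hc
      push Not at hc
      apply h0
      rw [hhi]
      refine sum_eq_zero fun r _ => ?_
      simp only [hch]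
      rw [if_neg (by have := hc r; omega), zero_mul]
    have hst1 : (s + 1) * t = s * t + t := by ring
    have hJst : s * t ≤ J := by omega
    set J' : ℕ := J - s * t with hJ'
    have hJJ : J = s * t + J' := by omega
    set x : ℤ := (p : ℤ) ^ N * hi - ((q : ℤ) ^ (s * t) * P - (p : ℤ) ^ N * a) * (q : ℤ) ^ J' with hx
    have hxeq : (x : ℝ) = (q : ℝ) ^ J' * ((q : ℝ) ^ (s * t) *
        ((p : ℝ) ^ N * ((ℓ : ℝ) / (q : ℝ) ^ J) - P)) := by
      have h2 : (q : ℝ) ^ (s * t) * ((ℓ : ℝ) - hi) = a * (q : ℝ) ^ J := by exact_mod_cast ha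
      have h3 : (q : ℝ) ^ J = (q : ℝ) ^ (s * t) * (q : ℝ) ^ J' := by
        rw [← pow_add, ← hJJ]
      have h4 : (q : ℝ) ^ (s * t) ≠ 0 := by positivity
      have h5 : (q : ℝ) ^ J' ≠ 0 := by positivity
      have h6 : (ℓ : ℝ) = hi + a * (q : ℝ) ^ J' := by
        apply mul_left_cancel₀ h4
        rw [mul_sub, h3] at h2
        linarith
      rw [hx]
      push_cast
      rw [h3, h6]
      field_simp
      ring
    have hxabs : |(x : ℝ)| ≤ (q : ℝ) ^ J' * exp (-(δ * L / 2)) := by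
      rw [hxeq, abs_mul, abs_mul, abs_of_pos (by positivity : (0 : ℝ) < (q : ℝ) ^ J'),
        abs_of_pos (by positivity : (0 : ℝ) < (q : ℝ) ^ (s * t))]
      have h2 : (q : ℝ) ^ (s * t) * |(p : ℝ) ^ N * ((ℓ : ℝ) / (q : ℝ) ^ J) - P| ≤
          exp (δ * L / 2) * exp (-((1 - δ) * L)) := by gcongr
      have h3 : exp (δ * L / 2) * exp (-((1 - δ) * L)) ≤ exp (-(δ * L / 2)) := by
        rw [← Real.exp_add]
        apply exp_le_exp.2
        have h7 : 3 * δ * L ≤ 1 * L := by gcongr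
        linarith
      have h4 := h2.trans h3
      gcongr
    have hxabs2 : |(x : ℝ)| ≤ (p : ℝ) ^ N * exp (-(δ * L)) := by
      have e1 : (x : ℝ) = (q : ℝ) ^ J * ((p : ℝ) ^ N * ((ℓ : ℝ) / (q : ℝ) ^ J) - P) := by
        rw [hxeq, ← mul_assoc, ← pow_add]
        congr 2
        omega
      rw [e1, abs_mul, abs_of_pos hqJ]
      calc (q : ℝ) ^ J * |(p : ℝ) ^ N * ((ℓ : ℝ) / (q : ℝ) ^ J) - P|
          ≤ ((p : ℝ) ^ N * exp ((1 - 2 * δ) * L)) * exp (-((1 - δ) * L)) := by gcongr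
        _ = (p : ℝ) ^ N * (exp ((1 - 2 * δ) * L) * exp (-((1 - δ) * L))) := by ring
        _ = (p : ℝ) ^ N * exp (-(δ * L)) := by
            rw [← Real.exp_add]
            congr 2
            ring
    have hxη : |(x : ℝ)| * exp (η1 * L) ≤ (q : ℝ) ^ J' := by
      calc |(x : ℝ)| * exp (η1 * L) ≤ ((q : ℝ) ^ J' * exp (-(δ * L / 2))) * exp (δ / 2 * L) := by
            gcongr
        _ = (q : ℝ) ^ J' * (exp (-(δ * L / 2)) * exp (δ / 2 * L)) := by ring
        _ = (q : ℝ) ^ J' := by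
            rw [← Real.exp_add]
            have : -(δ * L / 2) + δ / 2 * L = 0 := by ring
            rw [this, Real.exp_zero, mul_one]
    have hNC : (N : ℝ) ≤ C0 * L := hN.trans (by
      have : A ≤ C0 := (le_abs_self A).trans hC01
      gcongr)
    have hJC : (J : ℝ) ≤ C0 * L := by
      have h2 : (J : ℝ) * log q ≤ N * log p + L := by
        have h4 := Real.log_le_log hqJ hJ
        rw [Real.log_pow, Real.log_mul (by positivity) (by positivity), Real.log_pow, Real.log_exp] at h4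
        have h6 : 0 ≤ δ * L := by positivity
        linarith
      have h3 : (N : ℝ) ≤ |A| * L := hN.trans (by gcongr; exact le_abs_self A)
      have h4 : (J : ℝ) ≤ (|A| * L * log p + L) / log q := by
        rw [le_div_iff₀ hlq]
        exact h2.trans (by gcongr)
      refine h4.trans ?_
      have h5 : (|A| * L * log p + L) / log q = (|A| * log p + 1) / log q * L := by ring
      rw [h5, hC0]
      gcongr
      have := abs_nonneg A
      linarith
    have key := hfin L hL1 (fun _ => N) n ch x 0 J' (fun r => ⟨hNC, (hn r).trans (by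
        have : A ≤ C0 := (le_abs_self A).trans hC01
        gcongr), ?_⟩) (by push_cast; positivity) ?_ ?_ ?_ ?_
    · have h2 : ∑ j, ch j * ((p : ℤ) ^ N * (q : ℤ) ^ n j) = (p : ℤ) ^ N * hi := by
        rw [hhi, mul_sum]
        exact sum_congr rfl fun j _ => by ring
      rw [h2] at key
      rcases mul_eq_zero.1 key with h3 | h3
      · have : (p : ℤ) ^ N ≠ 0 := by positivity
        exact this h3
      · exact h0 h3
    · simp only [hch]
      split_ifs
      · exact hh r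
      · simp only [Int.cast_zero, abs_zero]
        positivity
    · refine le_trans ?_ hJC
      exact_mod_cast (by omega : J' ≤ J)
    · have h2 : ∑ j, ch j * ((p : ℤ) ^ N * (q : ℤ) ^ n j) = (p : ℤ) ^ N * hi := by
        rw [hhi, mul_sum]
        exact sum_congr rfl fun j _ => by ring
      rw [h2, hx, pow_zero, one_mul]
      exact ⟨(q : ℤ) ^ (s * t) * P - (p : ℤ) ^ N * a, by ring⟩
    · rw [pow_zero, one_mul]
      exact hxη
    · intro r hr
      have hr' : (s + 1) * t < J - n r := by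
        by_contra hc
        apply hr
        simp only [hch]
        rw [if_neg hc]
      constructor
      · calc |(x : ℝ)| * exp (η1 * L) ≤ ((p : ℝ) ^ N * exp (-(δ * L))) * exp (δ / 2 * L) := by gcongr
          _ = (p : ℝ) ^ N * (exp (-(δ * L)) * exp (δ / 2 * L)) := by ring
          _ ≤ (p : ℝ) ^ N * 1 := by
              gcongr
              rw [← Real.exp_add, Real.exp_le_one_iff]
              have h6 : 0 ≤ δ * L := by positivity
              linarith
          _ ≤ (p : ℝ) ^ N * (q : ℝ) ^ n r := by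
              gcongr
              exact one_le_pow₀ (by linarith)
      · have h2 : n r + t ≤ J' := by omega
        have h3 : (n r : ℝ) + t ≤ J' := by exact_mod_cast h2
        have h4 : η1 * L ≤ t * log q := by
          calc η1 * L ≤ (κ * log q) * L := by gcongr
            _ = (κ * L) * log q := by ring
            _ ≤ t * log q := by gcongr
        calc (n r : ℝ) * log q + η1 * L ≤ n r * log q + t * log q := by linarith
          _ = (n r + t) * log q := by ring
          _ ≤ J' * log q := by gcongr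

end Pool.Agent.K4H18.DM
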