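import Mathlib

/-!
# Sums over the digits of a natural number
-/

set_option autoImplicit false

namespace Pool.Agent.K4H18.DM

open Finset

/-- the sum of `f` over the lowest `R` digits -/
def dsum (q : ℕ) (f : ℕ → ℝ) (R v : ℕ) : ℝ := ∑ i ∈ range R, f (v / q ^ i % q)

/-- the mean of `f` over the digits -/
noncomputable def mu (q : ℕ) (f : ℕ → ℝ) : ℝ := (∑ c ∈ range q, f c) / q

/-- the variance of `f` over the digits -/
noncomputable def sg (q : ℕ) (f : ℕ → ℝ) : ℝ := (∑ c ∈ range q, (f c - mu q f) ^ 2) / q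

lemma sg_nonneg (q : ℕ) (f : ℕ → ℝ) : 0 ≤ sg q f := by
  unfold sg
  exact div_nonneg (sum_nonneg fun _ _ => sq_nonneg _) (Nat.cast_nonneg _)

lemma dsum_add (q : ℕ) (f : ℕ → ℝ) (J R X : ℕ) : dsum q f (J + R) X = dsum q f J X + dsum q f R (X / q ^ J) := by
  unfold dsum
  rw [sum_range_add]
  congr 1
  apply sum_congr rfl
  intro i _
  rw [pow_add, Nat.div_div_eq_div_mul]

lemma dsum_succ (q : ℕ) (f : ℕ → ℝ) (R X : ℕ) : dsum q f (R + 1) X = f (X % q) + dsum q f R (X / q) := by
  rw [Nat.add_comm R 1, dsum_add, pow_one]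
  congr 1
  unfold dsum
  simp

lemma digits_sum {q : ℕ} (hq : 2 ≤ q) (f : ℕ → ℝ) : ∀ X : ℕ,
    ((Nat.digits q X).map f).sum = dsum q f (Nat.digits q X).length X := by
  intro X
  induction X using Nat.strong_induction_on with
  | _ X ih =>
    rcases Nat.eq_zero_or_pos X with rfl | hX
    · simp [dsum]
    · have h1 := ih (X / q) (Nat.div_lt_self hX (by omega))
      rw [Nat.digits_def' (by omega) hX, List.map_cons, List.sum_cons, List.length_cons, h1, dsum_succ]

lemma dsum_len {q : ℕ} (hq : 2 ≤ q) (f : ℕ → ℝ) {T X : ℕ} (hT : X < q ^ T) :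
    dsum q f T X = ((Nat.digits q X).map f).sum + ((T : ℝ) - (Nat.digits q X).length) * f 0 := by
  have h1 : (Nat.digits q X).length ≤ T := (Nat.digits_length_le_iff (by omega) X).2 hT
  obtain ⟨r, hr⟩ : ∃ r, T = (Nat.digits q X).length + r := ⟨T - (Nat.digits q X).length, by omega⟩
  have h2 : X / q ^ (Nat.digits q X).length = 0 := by
    apply Nat.div_eq_of_lt
    exact Nat.lt_base_pow_length_digits (by omega)
  have h3 : dsum q f T X = dsum q f (Nat.digits q X).length X + dsum q f r (X / q ^ (Nat.digits q X).length) := by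
    rw [← dsum_add, ← hr]
  rw [h3, h2, ← digits_sum hq]
  congr 1
  unfold dsum
  simp only [Nat.zero_div, Nat.zero_mod, sum_const, card_range, nsmul_eq_mul]
  congr 1
  have : (T : ℝ) = (Nat.digits q X).length + r := by exact_mod_cast hr
  linarith

lemma sum_split {q : ℕ} (hq : 1 ≤ q) (R : ℕ) (g : ℕ → ℝ) :
    ∑ v ∈ range (q ^ (R + 1)), g v = ∑ u ∈ range (q ^ R), ∑ c ∈ range q, g (u * q + c) := by
  rw [← sum_product']
  symm
  refine sum_nbij' (fun x => x.1 * q + x.2) (fun v => (v / q, v % q)) ?_ ?_ ?_ ?_ ?_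
  · rintro ⟨u, c⟩ h
    rw [mem_product, mem_range, mem_range] at h
    rw [mem_range, pow_succ]
    obtain ⟨h1, h2⟩ := h
    dsimp only at h1 h2 ⊢
    calc u * q + c < u * q + q := by omega
      _ = (u + 1) * q := by ring
      _ ≤ q ^ R * q := Nat.mul_le_mul_right _ h1
  · intro v h
    rw [mem_range, pow_succ] at h
    rw [mem_product, mem_range, mem_range]
    exact ⟨(Nat.div_lt_iff_lt_mul (by omega)).2 h, Nat.mod_lt _ (by omega)⟩
  · rintro ⟨u, c⟩ h
    rw [mem_product, mem_range, mem_range] at h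
    obtain ⟨h1, h2⟩ := h
    dsimp only at h1 h2 ⊢
    ext
    · rw [Nat.mul_comm, Nat.mul_add_div (by omega), Nat.div_eq_of_lt h2, Nat.add_zero]
    · dsimp only
      rw [Nat.mul_comm, Nat.mul_add_mod, Nat.mod_eq_of_lt h2]
  · intro v _
    dsimp only
    rw [Nat.mul_comm]
    exact Nat.div_add_mod v q
  · intro _ _
    rfl

/-- the variance of the digit sum of a random number with `R` digits -/
lemma second_moment {q : ℕ} (hq : 1 ≤ q) (f : ℕ → ℝ) (R : ℕ) :
    ∑ v ∈ range (q ^ R), (dsum q f R v - R * mu q f) ^ 2 = (q : ℝ) ^ R * (R * sg q f) := by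
  have hq0 : (q : ℝ) ≠ 0 := by positivity
  induction R with
  | zero => simp [dsum]
  | succ R ih =>
    rw [sum_split hq]
    have h1 : ∀ u ∈ range (q ^ R), ∑ c ∈ range q, (dsum q f (R + 1) (u * q + c) - ((R + 1 : ℕ) : ℝ) * mu q f) ^ 2 =
        q * (dsum q f R u - R * mu q f) ^ 2 + q * sg q f := by
      intro u _
      have h2 : ∀ c ∈ range q, (dsum q f (R + 1) (u * q + c) - ((R + 1 : ℕ) : ℝ) * mu q f) ^ 2 =
          (dsum q f R u - R * mu q f) ^ 2 + (2 * (dsum q f R u - R * mu q f) * (f c - mu q f) +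
            (f c - mu q f) ^ 2) := by
        intro c hc
        rw [mem_range] at hc
        have e1 : (u * q + c) % q = c := by
          rw [Nat.mul_comm, Nat.mul_add_mod, Nat.mod_eq_of_lt hc]
        have e2 : (u * q + c) / q = u := by
          rw [Nat.mul_comm, Nat.mul_add_div (by omega), Nat.div_eq_of_lt hc, Nat.add_zero]
        rw [dsum_succ, e1, e2]
        push_cast
        ring
      rw [sum_congr rfl h2, sum_add_distrib, sum_add_distrib, sum_const, card_range, nsmul_eq_mul, ← mul_sum,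
        sum_sub_distrib, sum_const, card_range, nsmul_eq_mul]
      have h3 : ∑ c ∈ range q, f c = q * mu q f := by
        unfold mu
        field_simp
      have h4 : ∑ c ∈ range q, (f c - mu q f) ^ 2 = q * sg q f := by
        unfold sg
        field_simp
      rw [h3, h4]
      ring
    rw [sum_congr rfl h1, sum_add_distrib, ← mul_sum, ih, sum_const, card_range, nsmul_eq_mul]
    push_cast
    ring

open Classical in
/-- Chebyshev -/
lemma cheb {q : ℕ} (hq : 1 ≤ q) (f : ℕ → ℝ) (R : ℕ) {t : ℝ} (ht : 0 < t) :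
    (((range (q ^ R)).filter (fun v => t < |dsum q f R v - R * mu q f|)).card : ℝ) ≤
      (q : ℝ) ^ R * (R * sg q f) / t ^ 2 := by
  rw [le_div_iff₀ (by positivity), ← second_moment hq f R, ← nsmul_eq_mul, ← sum_const]
  calc ∑ _v ∈ (range (q ^ R)).filter (fun v => t < |dsum q f R v - R * mu q f|), t ^ 2
      ≤ ∑ v ∈ (range (q ^ R)).filter (fun v => t < |dsum q f R v - R * mu q f|),
          (dsum q f R v - R * mu q f) ^ 2 := by
        apply sum_le_sum
        intro v hv
        rw [mem_filter] at hv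
        rw [← sq_abs (dsum q f R v - R * mu q f)]
        exact pow_le_pow_left₀ ht.le hv.2.le 2
    _ ≤ _ := sum_le_sum_of_subset_of_nonneg (filter_subset _ _) fun _ _ _ => sq_nonneg _

open Classical in
/-- the numbers `m` with given `⌊(m P + y) / Q⌋` -/
lemma fibre_le {P Q : ℕ} (hP : 0 < P) (hQ : 0 < Q) (y M v : ℕ) :
    ((Icc 1 M).filter (fun m => (m * P + y) / Q = v)).card ≤ Q / P + 1 := by
  set S := (Icc 1 M).filter (fun m => (m * P + y) / Q = v) with hS
  rcases S.eq_empty_or_nonempty with h0 | h0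
  · rw [h0]; simp
  · set m0 := S.min' h0 with hm0
    have h1 : S ⊆ Icc m0 (m0 + Q / P) := by
      intro m hm
      have hle : m0 ≤ m := S.min'_le m hm
      rw [mem_Icc]
      refine ⟨hle, ?_⟩
      have h2 : (m * P + y) / Q = v := (mem_filter.1 hm).2
      have h3 : (m0 * P + y) / Q = v := (mem_filter.1 (S.min'_mem h0)).2
      have h4 : m * P + y < (v + 1) * Q := by
        rw [← Nat.div_lt_iff_lt_mul hQ, h2]
        omega
      have h5 : v * Q ≤ m0 * P + y := by
        rw [← h3]
        exact Nat.div_mul_le_self _ _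
      have h6 : (m - m0) * P ≤ Q := by
        have h7 : (v + 1) * Q = v * Q + Q := by ring
        have h8 : (m - m0) * P + m0 * P = m * P := by
          rw [← Nat.add_mul]
          congr 1
          omega
        omega
      have h7 : m - m0 ≤ Q / P := (Nat.le_div_iff_mul_le hP).2 h6
      omega
    refine (card_le_card h1).trans ?_
    rw [Nat.card_Icc]
    generalize Q / P = r
    omega

end Pool.Agent.K4H18.DM
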