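import Pool.Agent.K4H18.DM.B3

/-!
# The highest digits of `m P + y`
-/

set_option autoImplicit false

namespace Pool.Agent.K4H18.DM

open Finset

open Classical in
/-- the digits of `⌊(m P + y) / q ^ J⌋` -/
lemma top_bad {q P y M J R : ℕ} (hq : 1 ≤ q) (hP : 0 < P) (hy : y < P) (hM : 1 ≤ M) (hPQ : P ≤ q ^ J)
    (hT : (M + 1) * P ≤ q ^ (J + R)) (hT2 : q ^ (J + R) ≤ q * ((M + 1) * P)) (f : ℕ → ℝ) {t : ℝ} (ht : 0 < t) :
    (((Icc 1 M).filter (fun m => t < |dsum q f R ((m * P + y) / q ^ J) - R * mu q f|)).card : ℝ) ≤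
      4 * q * M * (R * sg q f) / t ^ 2 := by
  have hq0 : (0 : ℝ) < q := by exact_mod_cast hq
  have hP0 : (0 : ℝ) < P := by exact_mod_cast hP
  have hQ : 0 < q ^ J := pow_pos (by omega) _
  set B := (range (q ^ R)).filter (fun v => t < |dsum q f R v - R * mu q f|) with hB
  set S := (Icc 1 M).filter (fun m => t < |dsum q f R ((m * P + y) / q ^ J) - R * mu q f|) with hS
  have h1 : S.card ≤ (q ^ J / P + 1) * B.card := by
    apply card_le_mul_card_image_of_maps_to (f := fun m => (m * P + y) / q ^ J)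
    · intro m hm
      rw [hS, mem_filter, mem_Icc] at hm
      rw [hB, mem_filter, mem_range]
      refine ⟨?_, hm.2⟩
      rw [Nat.div_lt_iff_lt_mul hQ, ← pow_add, Nat.add_comm R J]
      refine lt_of_lt_of_le ?_ hT
      calc m * P + y < m * P + P := by omega
        _ = (m + 1) * P := by ring
        _ ≤ (M + 1) * P := Nat.mul_le_mul_right _ (by omega)
    · intro v _
      refine (card_le_card ?_).trans (fibre_le hP hQ y M v)
      intro m hm
      rw [mem_filter] at hm ⊢
      exact ⟨(mem_filter.1 hm.1).1, hm.2⟩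
  have h2 := cheb hq f R ht
  rw [← hB] at h2
  have hsg := sg_nonneg q f
  have h3 : ((q ^ J / P + 1 : ℕ) : ℝ) ≤ 2 * ((q : ℝ) ^ J / P) := by
    have h4 : ((q ^ J / P : ℕ) : ℝ) ≤ (q : ℝ) ^ J / P := by
      have := Nat.cast_div_le (α := ℝ) (m := q ^ J) (n := P)
      push_cast at this
      exact this
    have h5 : 1 ≤ (q : ℝ) ^ J / P := by
      rw [le_div_iff₀ hP0, one_mul]
      exact_mod_cast hPQ
    push_cast
    linarith
  have h4 : (q : ℝ) ^ (J + R) ≤ 2 * (q * (M * P)) := by
    have h5 : q ^ (J + R) ≤ 2 * (q * (M * P)) := by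
      refine hT2.trans ?_
      have h6 : (M + 1) * P ≤ 2 * (M * P) := by nlinarith
      calc q * ((M + 1) * P) ≤ q * (2 * (M * P)) := Nat.mul_le_mul_left _ h6
        _ = 2 * (q * (M * P)) := by ring
    exact_mod_cast h5
  calc (S.card : ℝ) ≤ ((q ^ J / P + 1 : ℕ) : ℝ) * B.card := by exact_mod_cast h1
    _ ≤ 2 * ((q : ℝ) ^ J / P) * ((q : ℝ) ^ R * (R * sg q f) / t ^ 2) := by gcongr
    _ = 2 * ((q : ℝ) ^ (J + R) / P) * (R * sg q f) / t ^ 2 := by
        rw [pow_add]
        ring
    _ ≤ 2 * ((2 * (q * (M * P))) / P) * (R * sg q f) / t ^ 2 := by gcongr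
    _ = 4 * q * M * (R * sg q f) / t ^ 2 := by
        field_simp
        ring

open Classical in
/-- few of the numbers are small -/
lemma lead_bad {q P y M T K : ℕ} (hq : 1 ≤ q) (hP : 0 < P) (hM : 1 ≤ M) (hKT : K ≤ T)
    (hT2 : q ^ T ≤ q * ((M + 1) * P)) :
    (((Icc 1 M).filter (fun m => m * P + y < q ^ (T - K))).card : ℝ) ≤ 2 * q * M / (q : ℝ) ^ K := by
  have hqK : 0 < q ^ K := pow_pos (by omega) _
  have h1 : (Icc 1 M).filter (fun m => m * P + y < q ^ (T - K)) ⊆ Icc 1 (2 * q * M / q ^ K) := by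
    intro m hm
    rw [mem_filter, mem_Icc] at hm
    rw [mem_Icc]
    refine ⟨hm.1.1, ?_⟩
    rw [Nat.le_div_iff_mul_le hqK]
    have h2 : m * P * q ^ K ≤ q ^ T := by
      calc m * P * q ^ K ≤ q ^ (T - K) * q ^ K := Nat.mul_le_mul_right _ (by omega)
        _ = q ^ T := by rw [← pow_add]; congr 1; omega
    have h3 : (m * q ^ K) * P ≤ (2 * q * M) * P := by
      calc (m * q ^ K) * P = m * P * q ^ K := by ring
        _ ≤ q * ((M + 1) * P) := h2.trans hT2
        _ ≤ q * ((2 * M) * P) := Nat.mul_le_mul_left _ (Nat.mul_le_mul_right _ (by omega))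
        _ = (2 * q * M) * P := by ring
    exact Nat.le_of_mul_le_mul_right h3 hP
  have h2 := card_le_card h1
  rw [Nat.card_Icc, Nat.add_sub_cancel] at h2
  calc (((Icc 1 M).filter (fun m => m * P + y < q ^ (T - K))).card : ℝ) ≤ ((2 * q * M / q ^ K : ℕ) : ℝ) := by
        exact_mod_cast h2
    _ ≤ ((2 * q * M : ℕ) : ℝ) / ((q ^ K : ℕ) : ℝ) := Nat.cast_div_le
    _ = 2 * q * M / (q : ℝ) ^ K := by push_cast; ring

/-- the sum over all digits, and the sum over the low digits -/
lemma close {q J R T K X : ℕ} (hq : 2 ≤ q) (f : ℕ → ℝ) {t : ℝ} (hT : T = J + R) (hX : X < q ^ T) (hKT : K ≤ T)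
    (hX2 : q ^ (T - K) ≤ X) (ht : |dsum q f R (X / q ^ J) - R * mu q f| ≤ t) :
    |((Nat.digits q X).map f).sum - T * mu q f - (dsum q f J X - J * mu q f)| ≤ t + K * |f 0| := by
  have h1 := dsum_len hq f hX
  have h2 : dsum q f T X = dsum q f J X + dsum q f R (X / q ^ J) := by rw [hT, dsum_add]
  have h3 : (Nat.digits q X).length ≤ T := (Nat.digits_length_le_iff (by omega) X).2 hX
  have h4 : T - K < (Nat.digits q X).length := by
    by_contra hcon
    push Not at hcon
    have := (Nat.digits_length_le_iff (by omega : 1 < q) X).1 hcon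
    omega
  have h5 : |((T : ℝ) - (Nat.digits q X).length) * f 0| ≤ K * |f 0| := by
    rw [abs_mul]
    have h6 : |(T : ℝ) - (Nat.digits q X).length| ≤ K := by
      rw [abs_of_nonneg (by
        have : ((Nat.digits q X).length : ℝ) ≤ T := by exact_mod_cast h3
        linarith)]
      have : (T : ℝ) ≤ K + (Nat.digits q X).length := by
        exact_mod_cast (by omega : T ≤ K + (Nat.digits q X).length)
      linarith
    exact mul_le_mul_of_nonneg_right h6 (abs_nonneg _)
  have h6 : ((Nat.digits q X).map f).sum - T * mu q f - (dsum q f J X - J * mu q f) =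
      (dsum q f R (X / q ^ J) - R * mu q f) - ((T : ℝ) - (Nat.digits q X).length) * f 0 := by
    have h7 : (T : ℝ) = J + R := by exact_mod_cast hT
    have h8 : ((Nat.digits q X).map f).sum = dsum q f J X + dsum q f R (X / q ^ J) -
      ((T : ℝ) - (Nat.digits q X).length) * f 0 := by linarith
    rw [h8]
    have h9 : (T : ℝ) * mu q f = J * mu q f + R * mu q f := by rw [h7]; ring
    rw [h9]
    ring
  rw [h6]
  refine (abs_sub _ _).trans ?_
  linarith

end Pool.Agent.K4H18.DM
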