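import Pool.Agent.K4H18.DM.B2
import Pool.Agent.K4H18.DM.B4
import Pool.Agent.K4H18.DG.A5

/-!
# The central limit theorem for the sums over all digits of `m p ^ N + y`
-/

set_option autoImplicit false

namespace Pool.Agent.K4H18.DM

open Finset Real MeasureTheory Filter Topology ProbabilityTheory
open Pool.Agent.Y933.KD Pool.Agent.Y933.KE

lemma mn_one (q : ℕ) (f : ℕ → ℝ) : mn q 1 f = mu q f := by
  unfold mn mu
  rw [pow_one, pow_one]

lemma cv_one (q : ℕ) (f : ℕ → ℝ) : cv q 1 f 0 + 2 * ∑ h ∈ Finset.Ico 1 1, cv q 1 f h = sg q f := by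
  rw [Finset.Ico_self, sum_empty, mul_zero, add_zero]
  unfold cv sg
  rw [mn_one]
  simp only [Nat.add_zero, pow_one, pow_zero, Nat.div_one]
  congr 1
  apply sum_congr rfl
  intro c hc
  rw [Nat.mod_eq_of_lt (mem_range.1 hc)]
  ring

/-- the number of low places -/
noncomputable def JJ (p q : ℕ) (ρ : ℝ) (N : ℕ → ℕ) (M : ℕ) : ℕ :=
  Nat.log q ⌊(p : ℝ) ^ (N M) * (M : ℝ) ^ (1 - 3 * ρ)⌋₊

/-- the number of all places -/
noncomputable def TT (p q : ℕ) (N : ℕ → ℕ) (M : ℕ) : ℕ := Nat.log q ((M + 1) * p ^ (N M)) + 1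

/-- the number of digits, as a real number -/
noncomputable def DD (p q : ℕ) (N : ℕ → ℕ) (M : ℕ) : ℝ := Real.logb q (M * (p : ℝ) ^ (N M))

lemma facts {p q : ℕ} (hp : 2 ≤ p) (hq : 2 ≤ q) {ρ : ℝ} (hρ : 0 < ρ) (hρ3 : 3 * ρ ≤ 1) (N : ℕ → ℕ) {M : ℕ}
    (hM : 1 ≤ M) :
    (q : ℝ) ^ (JJ p q ρ N M) ≤ (p : ℝ) ^ (N M) * (M : ℝ) ^ (1 - 3 * ρ) ∧
    (p : ℝ) ^ (N M) * (M : ℝ) ^ (1 - 3 * ρ) < (q : ℝ) ^ (JJ p q ρ N M + 1) ∧
    (M + 1) * p ^ (N M) < q ^ (TT p q N M) ∧ q ^ (TT p q N M) ≤ q * ((M + 1) * p ^ (N M)) ∧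
    JJ p q ρ N M ≤ TT p q N M := by
  have hqR : (2 : ℝ) ≤ q := by exact_mod_cast hq
  have hpR : (2 : ℝ) ≤ p := by exact_mod_cast hp
  have hMR : (1 : ℝ) ≤ M := by exact_mod_cast hM
  have hp1 : (1 : ℝ) ≤ (p : ℝ) ^ (N M) := one_le_pow₀ (by linarith)
  have hM1 : (1 : ℝ) ≤ (M : ℝ) ^ (1 - 3 * ρ) := Real.one_le_rpow hMR (by linarith)
  have hx1 : (1 : ℝ) ≤ (p : ℝ) ^ (N M) * (M : ℝ) ^ (1 - 3 * ρ) := one_le_mul_of_one_le_of_one_le hp1 hM1
  have hfl : 0 < ⌊(p : ℝ) ^ (N M) * (M : ℝ) ^ (1 - 3 * ρ)⌋₊ := Nat.floor_pos.2 hx1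
  have hpN : 0 < p ^ (N M) := pow_pos (by omega) _
  have hA0 : (M + 1) * p ^ (N M) ≠ 0 := by positivity
  refine ⟨?_, ?_, ?_, ?_, ?_⟩
  · have h1 := Nat.pow_log_le_self q hfl.ne'
    have h2 : ((q ^ (JJ p q ρ N M) : ℕ) : ℝ) ≤ (⌊(p : ℝ) ^ (N M) * (M : ℝ) ^ (1 - 3 * ρ)⌋₊ : ℝ) :=
      Nat.cast_le.2 h1
    rw [Nat.cast_pow] at h2
    exact h2.trans (Nat.floor_le (by linarith))
  · have h1 : ⌊(p : ℝ) ^ (N M) * (M : ℝ) ^ (1 - 3 * ρ)⌋₊ < q ^ (JJ p q ρ N M + 1) :=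
      Nat.lt_pow_succ_log_self (by omega) _
    have h2 := Nat.lt_of_floor_lt h1
    push_cast at h2
    exact h2
  · exact Nat.lt_pow_succ_log_self (by omega) _
  · have h1 := Nat.pow_log_le_self q hA0
    unfold TT
    rw [pow_succ, Nat.mul_comm]
    exact Nat.mul_le_mul_left _ h1
  · unfold JJ TT
    have h1 : ⌊(p : ℝ) ^ (N M) * (M : ℝ) ^ (1 - 3 * ρ)⌋₊ ≤ (M + 1) * p ^ (N M) := by
      apply Nat.floor_le_of_le
      push_cast
      have h2 : (M : ℝ) ^ (1 - 3 * ρ) ≤ M := by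
        calc (M : ℝ) ^ (1 - 3 * ρ) ≤ (M : ℝ) ^ (1 : ℝ) := Real.rpow_le_rpow_of_exponent_le hMR (by linarith)
          _ = M := Real.rpow_one _
      calc (p : ℝ) ^ (N M) * (M : ℝ) ^ (1 - 3 * ρ) ≤ (p : ℝ) ^ (N M) * (M + 1) := by gcongr; linarith
        _ = _ := by ring
    have h2 := Nat.log_mono_right (b := q) h1
    omega

/-- the sizes -/
lemma sizes {p q : ℕ} (hp : 2 ≤ p) (hq : 2 ≤ q) {ρ : ℝ} (hρ : 0 < ρ) (hρ3 : 3 * ρ ≤ 1) (N : ℕ → ℕ) {M : ℕ}
    (hM : 1 ≤ M) :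
    (JJ p q ρ N M : ℝ) ≤ DD p q N M ∧ (TT p q N M : ℝ) ≤ DD p q N M + 2 ∧ DD p q N M ≤ TT p q N M ∧
    ((TT p q N M : ℝ) - JJ p q ρ N M) * log q ≤ 3 * ρ * log M + 3 * log q ∧
    log M ≤ DD p q N M * log q ∧ DD p q N M * log q = log M + N M * log p ∧
    (1 - 3 * ρ) * log M ≤ (JJ p q ρ N M + 1) * log q := by
  obtain ⟨h1, h2, h3, h4, h5⟩ := facts hp hq hρ hρ3 N hM
  have hqR : (2 : ℝ) ≤ q := by exact_mod_cast hq
  have hq0 : (0 : ℝ) < q := by linarith
  have hpR : (2 : ℝ) ≤ p := by exact_mod_cast hp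
  have hp0 : (0 : ℝ) < p := by linarith
  have hMR : (1 : ℝ) ≤ M := by exact_mod_cast hM
  have hMp : (0 : ℝ) < M := by linarith
  have hlq : 0 < log (q : ℝ) := Real.log_pos (by linarith)
  have hlp : 0 < log (p : ℝ) := Real.log_pos (by linarith)
  have hlM : 0 ≤ log (M : ℝ) := Real.log_nonneg hMR
  have hN0 : (0 : ℝ) ≤ N M := Nat.cast_nonneg _
  have hD : DD p q N M * log q = log M + N M * log p := by
    unfold DD Real.logb
    rw [div_mul_cancel₀ _ hlq.ne', Real.log_mul hMp.ne' (by positivity), Real.log_pow]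
  have hlog2 : log 2 ≤ log (q : ℝ) := Real.log_le_log (by norm_num) hqR
  have hlM1 : log ((M : ℝ) + 1) ≤ log M + log 2 := by
    rw [← Real.log_mul hMp.ne' (by norm_num)]
    exact Real.log_le_log (by linarith) (by linarith)
  -- logarithms
  have k1 := Real.log_le_log (by positivity) h1
  rw [Real.log_pow, Real.log_mul (by positivity) (by positivity), Real.log_pow, Real.log_rpow hMp] at k1
  have k2 := Real.log_le_log (by positivity) h2.le
  rw [Real.log_pow, Real.log_mul (by positivity) (by positivity), Real.log_pow, Real.log_rpow hMp] at k2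
  push_cast at k2
  have h3' : ((M : ℝ) + 1) * (p : ℝ) ^ (N M) ≤ (q : ℝ) ^ (TT p q N M) := by exact_mod_cast h3.le
  have k3 := Real.log_le_log (by positivity) h3'
  rw [Real.log_pow, Real.log_mul (by positivity) (by positivity), Real.log_pow] at k3
  have h4' : (q : ℝ) ^ (TT p q N M) ≤ q * (((M : ℝ) + 1) * (p : ℝ) ^ (N M)) := by exact_mod_cast h4
  have k4 := Real.log_le_log (by positivity) h4'
  rw [Real.log_pow, Real.log_mul (by positivity) (by positivity), Real.log_mul (by positivity) (by positivity),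
    Real.log_pow] at k4
  have hlM2 : log (M : ℝ) ≤ log ((M : ℝ) + 1) := Real.log_le_log hMp (by linarith)
  have hρM : 0 ≤ 3 * ρ * log M := by positivity
  refine ⟨?_, ?_, ?_, ?_, ?_, hD, ?_⟩
  · refine le_of_mul_le_mul_right ?_ hlq
    rw [hD]
    linarith
  · refine le_of_mul_le_mul_right ?_ hlq
    rw [add_mul, hD]
    linarith
  · refine le_of_mul_le_mul_right ?_ hlq
    rw [hD]
    linarith
  · rw [sub_mul]
    linarith
  · rw [hD]
    have : 0 ≤ (N M : ℝ) * log p := by positivity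
    linarith
  · have h6 : 0 ≤ (N M : ℝ) * log p := by positivity
    linarith

/-- the central limit theorem for the low digits -/
lemma clt_J {p q : ℕ} (hp : 2 ≤ p) (hq : 2 ≤ q) (hpq : p.Coprime q) (f : ℕ → ℝ) (hf : 0 < sg q f) (A : ℝ)
    (N y : ℕ → ℕ) (hN : ∀ᶠ M : ℕ in atTop, (N M : ℝ) ≤ A * log M) {ρ : ℝ} (hρ : 0 < ρ) (hρ6 : 6 * ρ ≤ 1) (a : ℝ) :
    Tendsto (fun M : ℕ => (((Icc 1 M).filter (fun m => dsum q f (JJ p q ρ N M) (m * p ^ (N M) + y M) -
      JJ p q ρ N M * mu q f ≤ a * √(sg q f * JJ p q ρ N M))).card : ℝ) / M) atTop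
      (𝓝 ((gaussianReal 0 1).real (Set.Iic a))) := by
  have hρ3 : 3 * ρ ≤ 1 := by linarith
  have hqR : (2 : ℝ) ≤ q := by exact_mod_cast hq
  have hpR : (2 : ℝ) ≤ p := by exact_mod_cast hp
  have hlq : 0 < log (q : ℝ) := Real.log_pos (by linarith)
  have hlp : 0 < log (p : ℝ) := Real.log_pos (by linarith)
  have hlog : Tendsto (fun M : ℕ => log (M : ℝ)) atTop atTop := Real.tendsto_log_atTop.comp tendsto_natCast_atTop_atTop
  have hJ : Tendsto (JJ p q ρ N) atTop atTop := by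
    have h1 : Tendsto (fun M : ℕ => (1 / 2 / log q) * log (M : ℝ) + (-1)) atTop atTop :=
      tendsto_atTop_add_const_right _ _ (hlog.const_mul_atTop (by positivity))
    have h2 : Tendsto (fun M : ℕ => (JJ p q ρ N M : ℝ)) atTop atTop := by
      refine tendsto_atTop_mono' _ ?_ h1
      filter_upwards [eventually_ge_atTop 1] with M hM
      obtain ⟨-, -, -, -, -, -, h3⟩ := sizes hp hq hρ hρ3 N hM
      have hlM : 0 ≤ log (M : ℝ) := Real.log_nonneg (by exact_mod_cast hM)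
      have h4 : 1 / 2 * log M ≤ (JJ p q ρ N M + 1) * log q := by
        refine le_trans ?_ h3
        gcongr
        linarith
      have h5 : 1 / 2 / log q * log M = (1 / 2 * log M) / log q := by ring
      rw [h5]
      have h6 : (1 / 2 * log M) / log q ≤ JJ p q ρ N M + 1 := by
        rw [div_le_iff₀ hlq]
        exact h4
      linarith
    exact tendsto_natCast_atTop_iff.1 h2
  have h1 := clt_smear (w := 1) (by omega : 1 ≤ q) le_rfl f (by rw [cv_one]; exact hf)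
    (A := (|A| * log p + 1) / log q) (SP2_prob p q A ρ) (fun k => tw_pow2 hp hq hpq A ρ hρ hρ3 k _)
    (fun M => Icc 1 M) (fun M m => m * p ^ (N M) + y M) (fun _ => 0) (JJ p q ρ N) hJ (by
      filter_upwards [hN, eventually_ge_atTop 1] with M hM1 hM
      have e1 : 0 + JJ p q ρ N M + 1 - 1 = JJ p q ρ N M := by omega
      rw [e1]
      obtain ⟨h2, -, -, -, -⟩ := facts hp hq hρ hρ3 N hM
      obtain ⟨h3, -, -, -, -, h4, -⟩ := sizes hp hq hρ hρ3 N hM
      refine ⟨⟨1, by rw [mem_Icc]; exact ⟨le_rfl, hM⟩⟩, ⟨N M, JJ p q ρ N M, y M, hM1, h2, rfl⟩, ?_⟩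
      have hlM : 0 ≤ log (M : ℝ) := Real.log_nonneg (by exact_mod_cast hM)
      rw [div_mul_eq_mul_div, le_div_iff₀ hlq]
      calc (JJ p q ρ N M : ℝ) * log q ≤ DD p q N M * log q := by gcongr
        _ = log M + N M * log p := h4
        _ ≤ log M + (|A| * log M) * log p := by
            gcongr
            refine hM1.trans ?_
            gcongr
            exact le_abs_self A
        _ = (|A| * log p + 1) * log M := by ring) a
  rw [cv_one, mn_one] at h1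
  refine h1.congr fun M => ?_
  rw [Nat.card_Icc, Nat.add_sub_cancel]
  congr 3
  apply filter_congr
  intro m _
  unfold dsum
  simp only [zero_add, pow_one]

end Pool.Agent.K4H18.DM
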