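import Pool.Agent.K4H18.DM.B5

/-!
# The central limit theorem for the sums over all digits of `m p ^ N + y`: the result
-/

set_option autoImplicit false

namespace Pool.Agent.K4H18.DM

open Finset Real MeasureTheory Filter Topology ProbabilityTheory
open Pool.Agent.K4H18.DG (Phi_lip)

/-- elementary inequalities for the normalisation -/
lemma norm_ineq {s d j a η κ τ : ℝ} (hs : 0 ≤ s) (hj1 : j ≤ d) (hj2 : (1 - κ) * d ≤ j) (hd : 0 ≤ d)
    (hκ : κ ≤ 1 / 2) (hη : 0 < η) (ha : |a| * κ ≤ η / 4) (hτ : τ = s * η / 8) :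
    a * (s * d) + 2 * (τ * d) ≤ (a + η) * (s * j) ∧ (a - η) * (s * j) + 2 * (τ * d) ≤ a * (s * d) := by
  have h1 : |a * (d - j)| ≤ η / 4 * d := by
    rw [abs_mul, abs_of_nonneg (by linarith : (0 : ℝ) ≤ d - j)]
    calc |a| * (d - j) ≤ |a| * (κ * d) := by
          apply mul_le_mul_of_nonneg_left _ (abs_nonneg _)
          linarith
      _ = |a| * κ * d := by ring
      _ ≤ η / 4 * d := by gcongr
  rw [abs_le] at h1
  have h2 : η * d / 2 ≤ η * j := by
    have h3 : d / 2 ≤ j := by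
      refine le_trans ?_ hj2
      have h4 : κ * d ≤ 1 / 2 * d := by gcongr
      linarith
    have h5 : η * (d / 2) ≤ η * j := by gcongr
    linarith
  have e1 : (a + η) * (s * j) - (a * (s * d) + 2 * (τ * d)) = s * (η * j - a * (d - j) - η / 4 * d) := by
    rw [hτ]; ring
  have e2 : a * (s * d) - ((a - η) * (s * j) + 2 * (τ * d)) = s * (η * j + a * (d - j) - η / 4 * d) := by
    rw [hτ]; ring
  constructor
  · have : 0 ≤ s * (η * j - a * (d - j) - η / 4 * d) := mul_nonneg hs (by linarith [h1.2])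
    linarith
  · have : 0 ≤ s * (η * j + a * (d - j) - η / 4 * d) := mul_nonneg hs (by linarith [h1.1])
    linarith

/-- **the central limit theorem for the sums over all digits of `m p ^ N + y`** -/
theorem clt_all {p q : ℕ} (hp : 2 ≤ p) (hq : 2 ≤ q) (hpq : p.Coprime q) (f : ℕ → ℝ) (hf : 0 < sg q f) (A : ℝ)
    (N y : ℕ → ℕ) (hy : ∀ M, y M < p ^ (N M)) (hN : ∀ᶠ M : ℕ in atTop, (N M : ℝ) ≤ A * log M) (a : ℝ) :
    Tendsto (fun M : ℕ => (((Icc 1 M).filter (fun m => ((Nat.digits q (m * p ^ (N M) + y M)).map f).sum -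
      DD p q N M * mu q f ≤ a * √(sg q f * DD p q N M))).card : ℝ) / M) atTop
      (𝓝 ((gaussianReal 0 1).real (Set.Iic a))) := by
  classical
  have hq1 : 1 ≤ q := by omega
  have hqR : (2 : ℝ) ≤ q := by exact_mod_cast hq
  have hq0 : (0 : ℝ) < q := by linarith
  have hpR : (2 : ℝ) ≤ p := by exact_mod_cast hp
  have hlq : 0 < log (q : ℝ) := Real.log_pos (by linarith)
  have hlog : Tendsto (fun M : ℕ => log (M : ℝ)) atTop atTop := Real.tendsto_log_atTop.comp tendsto_natCast_atTop_atTop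
  rw [Metric.tendsto_nhds]
  intro ε hε
  -- the parameters
  set η : ℝ := ε / 8 with hη
  have hη0 : 0 < η := by positivity
  obtain ⟨ρ, hρ, hρ24, hρa, hρη⟩ : ∃ ρ : ℝ, 0 < ρ ∧ 24 * ρ ≤ 1 ∧ |a| * (4 * ρ) ≤ η / 4 ∧
      1024 * q * ρ ≤ η ^ 3 := by
    refine ⟨min (1 / 24) (min (η / (16 * (|a| + 1))) (η ^ 3 / (1024 * q))), ?_, ?_, ?_, ?_⟩
    · have := abs_nonneg a
      positivity
    · have := min_le_left (1 / 24 : ℝ) (min (η / (16 * (|a| + 1))) (η ^ 3 / (1024 * q)))
      linarith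
    · have h1 : min (1 / 24 : ℝ) (min (η / (16 * (|a| + 1))) (η ^ 3 / (1024 * q))) ≤ η / (16 * (|a| + 1)) :=
        (min_le_right _ _).trans (min_le_left _ _)
      have h0 := abs_nonneg a
      calc |a| * (4 * min (1 / 24 : ℝ) (min (η / (16 * (|a| + 1))) (η ^ 3 / (1024 * q))))
          ≤ (|a| + 1) * (4 * (η / (16 * (|a| + 1)))) := by
            apply mul_le_mul (by linarith) (by linarith) _ (by linarith)
            have : 0 < min (1 / 24 : ℝ) (min (η / (16 * (|a| + 1))) (η ^ 3 / (1024 * q))) := by positivity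
            linarith
        _ = η / 4 := by
            field_simp
            norm_num
    · have h1 : min (1 / 24 : ℝ) (min (η / (16 * (|a| + 1))) (η ^ 3 / (1024 * q))) ≤ η ^ 3 / (1024 * q) :=
        (min_le_right _ _).trans (min_le_right _ _)
      calc 1024 * q * min (1 / 24 : ℝ) (min (η / (16 * (|a| + 1))) (η ^ 3 / (1024 * q)))
          ≤ 1024 * q * (η ^ 3 / (1024 * q)) := by gcongr
        _ = η ^ 3 := by field_simp
  have hρ3 : 3 * ρ ≤ 1 := by linarith
  set s : ℝ := √(sg q f) with hs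
  have hs0 : 0 < s := Real.sqrt_pos.2 hf
  have hs2 : s ^ 2 = sg q f := Real.sq_sqrt hf.le
  set τ : ℝ := s * η / 8 with hτ
  have hτ0 : 0 < τ := by positivity
  obtain ⟨K, hK⟩ : ∃ K : ℕ, 2 * q / (q : ℝ) ^ K ≤ η := by
    obtain ⟨K, hK⟩ := exists_pow_lt_of_lt_one (show 0 < η / (2 * q) by positivity) (show (1 / (q : ℝ)) < 1 by
      rw [div_lt_one (by linarith)]; linarith)
    refine ⟨K, ?_⟩
    rw [one_div_pow, div_lt_div_iff₀ (by positivity) (by positivity)] at hK
    rw [div_le_iff₀ (by positivity)]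
    linarith
  -- large M
  have hDinf : Tendsto (DD p q N) atTop atTop := by
    refine tendsto_atTop_mono' _ ?_ (hlog.const_mul_atTop (show 0 < 1 / log (q : ℝ) by positivity))
    filter_upwards [eventually_ge_atTop 1] with M hM
    obtain ⟨-, -, -, -, h1, -, -⟩ := sizes hp hq hρ hρ3 N hM
    rw [one_div_mul_eq_div, div_le_iff₀ hlq]
    exact h1
  have hsq : ∀ᶠ M : ℕ in atTop, K * |f 0| + 2 * |mu q f| ≤ τ * √(DD p q N M) :=
    ((Real.tendsto_sqrt_atTop.comp hDinf).const_mul_atTop hτ0).eventually_ge_atTop _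
  have c1 := (Metric.tendsto_nhds.1 (clt_J hp hq hpq f hf A N y hN hρ (by linarith) (a + η))) η hη0
  have c2 := (Metric.tendsto_nhds.1 (clt_J hp hq hpq f hf A N y hN hρ (by linarith) (a - η))) η hη0
  filter_upwards [c1, c2, hsq, hDinf.eventually_ge_atTop (K : ℝ), hlog.eventually_ge_atTop (3 * log q / ρ),
    hlog.eventually_ge_atTop (4 * log q), eventually_ge_atTop 1] with M h1 h2 h3 h4 h5 h6 hM
  rw [Real.dist_eq, abs_lt] at h1 h2 ⊢
  obtain ⟨f1, f2, f3, f4, f5⟩ := facts hp hq hρ hρ3 N hM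
  obtain ⟨g1, g2, g3, g4, g5, g6, g7⟩ := sizes hp hq hρ hρ3 N hM
  set J := JJ p q ρ N M with hJ
  set T := TT p q N M with hT
  set D := DD p q N M with hD
  set P := p ^ (N M) with hP
  have hP0 : 0 < P := pow_pos (by omega) _
  have hMR : (1 : ℝ) ≤ M := by exact_mod_cast hM
  have hMp : (0 : ℝ) < M := by linarith
  have hlM : 0 ≤ log (M : ℝ) := Real.log_nonneg hMR
  obtain ⟨R, hR⟩ : ∃ R, T = J + R := ⟨T - J, by omega⟩
  have hTR : (T : ℝ) = J + R := by exact_mod_cast hR
  have hKT : K ≤ T := by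
    have : (K : ℝ) ≤ T := h4.trans g3
    exact_mod_cast this
  have hD0 : 0 < D := by
    have : 0 < 4 * log (q : ℝ) := by positivity
    have h7 : 0 < D * log q := by linarith
    exact pos_of_mul_pos_left h7 hlq.le
  have hRD : (R : ℝ) ≤ 4 * ρ * D := by
    rw [hTR] at g4
    have h7 : 3 * log q ≤ ρ * log M := by
      rw [div_le_iff₀ hρ] at h5
      linarith
    have h8 : (R : ℝ) * log q ≤ 4 * ρ * D * log q := by
      have e1 : (J : ℝ) + R - J = R := by ring
      rw [e1] at g4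
      calc (R : ℝ) * log q ≤ 4 * ρ * log M := by linarith
        _ ≤ 4 * ρ * (D * log q) := by gcongr
        _ = 4 * ρ * D * log q := by ring
    exact le_of_mul_le_mul_right h8 hlq
  have hPQ : P ≤ q ^ J := by
    have h7 : (P : ℝ) * q ≤ (q : ℝ) ^ J * q := by
      rw [← pow_succ]
      refine le_trans ?_ f2.le
      rw [hP]
      push_cast
      gcongr
      rw [← Real.log_le_log_iff hq0 (by positivity), Real.log_rpow hMp]
      have h8 : 1 / 2 * log (M : ℝ) ≤ (1 - 3 * ρ) * log M := by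
        gcongr
        linarith
      linarith
    have h8 : (P : ℝ) ≤ (q : ℝ) ^ J := le_of_mul_le_mul_right h7 hq0
    exact_mod_cast h8
  set d : ℝ := √D with hd
  have hd0 : 0 < d := Real.sqrt_pos.2 hD0
  have hd2 : d ^ 2 = D := Real.sq_sqrt hD0.le
  set j : ℝ := √(J : ℝ) with hj
  have hjd : j ≤ d := Real.sqrt_le_sqrt g1
  have hjd2 : (1 - 4 * ρ) * d ≤ j := by
    apply Real.le_sqrt_of_sq_le
    rw [mul_pow, hd2]
    have h7 : (1 - 4 * ρ) ^ 2 ≤ 1 - 4 * ρ := by nlinarith
    calc (1 - 4 * ρ) ^ 2 * D ≤ (1 - 4 * ρ) * D := by gcongr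
      _ ≤ J := by linarith
  obtain ⟨n1, n2⟩ := norm_ineq hs0.le hjd hjd2 hd0.le (by linarith) hη0 hρa hτ
  have hsd : √(sg q f * D) = s * d := Real.sqrt_mul hf.le _
  have hsj : √(sg q f * J) = s * j := Real.sqrt_mul hf.le _
  rw [hsj] at h1 h2
  rw [hsd]
  -- the sets
  set G := (Icc 1 M).filter (fun m => ((Nat.digits q (m * P + y M)).map f).sum - D * mu q f ≤ a * (s * d)) with hG
  set Zu := (Icc 1 M).filter (fun m => dsum q f J (m * P + y M) - J * mu q f ≤ (a + η) * (s * j)) with hZu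
  set Zl := (Icc 1 M).filter (fun m => dsum q f J (m * P + y M) - J * mu q f ≤ (a - η) * (s * j)) with hZl
  set B1 := (Icc 1 M).filter (fun m => τ * d < |dsum q f R ((m * P + y M) / q ^ J) - R * mu q f|) with hB1
  set B2 := (Icc 1 M).filter (fun m => m * P + y M < q ^ (T - K)) with hB2
  have hB1c : (B1.card : ℝ) / M ≤ η := by
    have h7 := top_bad (R := R) hq1 hP0 (hy M) hM hPQ (by rw [← hR]; exact f3.le) (by rw [← hR]; exact f4) f
      (t := τ * d) (by positivity)
    rw [div_le_iff₀ hMp]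
    refine h7.trans ?_
    rw [div_le_iff₀ (by positivity), mul_pow, hd2]
    have h8 : τ ^ 2 = sg q f * η ^ 2 / 64 := by rw [hτ, ← hs2]; ring
    rw [h8]
    calc 4 * (q : ℝ) * M * (R * sg q f) ≤ 4 * q * M * ((4 * ρ * D) * sg q f) := by gcongr
      _ = (1024 * q * ρ) * (M * D * sg q f / 64) := by ring
      _ ≤ η ^ 3 * (M * D * sg q f / 64) := by gcongr
      _ = η * M * (sg q f * η ^ 2 / 64 * D) := by ring
  have hB2c : (B2.card : ℝ) / M ≤ η := by
    have h7 := lead_bad (y := y M) hq1 hP0 hM hKT f4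
    rw [div_le_iff₀ hMp]
    refine h7.trans ?_
    calc 2 * (q : ℝ) * M / (q : ℝ) ^ K = (2 * q / (q : ℝ) ^ K) * M := by ring
      _ ≤ η * M := by gcongr
  have hcl : ∀ m ∈ Icc 1 M, m ∉ B1 → m ∉ B2 →
      |((Nat.digits q (m * P + y M)).map f).sum - D * mu q f - (dsum q f J (m * P + y M) - J * mu q f)| ≤
        2 * (τ * d) := by
    intro m hm k1 k2
    have k1' : |dsum q f R ((m * P + y M) / q ^ J) - R * mu q f| ≤ τ * d := by
      by_contra hcon
      push Not at hcon
      exact k1 (mem_filter.2 ⟨hm, hcon⟩)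
    have k2' : q ^ (T - K) ≤ m * P + y M := by
      by_contra hcon
      push Not at hcon
      exact k2 (mem_filter.2 ⟨hm, hcon⟩)
    rw [mem_Icc] at hm
    have hX : m * P + y M < q ^ T := by
      refine lt_of_lt_of_le ?_ f3.le
      have := hy M
      calc m * P + y M < m * P + P := by omega
        _ = (m + 1) * P := by ring
        _ ≤ (M + 1) * P := Nat.mul_le_mul_right _ (by omega)
    have k3 := close hq f hR hX hKT k2' k1'
    have k4 : |((T : ℝ) - D) * mu q f| ≤ 2 * |mu q f| := by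
      rw [abs_mul]
      apply mul_le_mul_of_nonneg_right _ (abs_nonneg _)
      rw [abs_le]
      constructor <;> linarith
    rw [abs_le] at k3 k4 ⊢
    constructor <;> nlinarith [k3.1, k3.2, k4.1, k4.2]
  have hGu : G ⊆ Zu ∪ (B1 ∪ B2) := by
    intro m hm
    rw [mem_union, mem_union]
    by_cases k1 : m ∈ B1
    · exact Or.inr (Or.inl k1)
    by_cases k2 : m ∈ B2
    · exact Or.inr (Or.inr k2)
    left
    rw [hG, mem_filter] at hm
    have k3 := hcl m hm.1 k1 k2
    rw [abs_le] at k3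
    rw [hZu, mem_filter]
    exact ⟨hm.1, by linarith [hm.2, k3.1, k3.2]⟩
  have hGl : Zl ⊆ G ∪ (B1 ∪ B2) := by
    intro m hm
    rw [mem_union, mem_union]
    by_cases k1 : m ∈ B1
    · exact Or.inr (Or.inl k1)
    by_cases k2 : m ∈ B2
    · exact Or.inr (Or.inr k2)
    left
    rw [hZl, mem_filter] at hm
    have k3 := hcl m hm.1 k1 k2
    rw [abs_le] at k3
    rw [hG, mem_filter]
    exact ⟨hm.1, by linarith [hm.2, k3.1, k3.2]⟩
  have u1 : (G.card : ℝ) / M ≤ Zu.card / M + (B1.card / M + B2.card / M) := by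
    rw [← add_div, ← add_div]
    gcongr
    have := (card_le_card hGu).trans ((card_union_le _ _).trans (Nat.add_le_add_left (card_union_le _ _) _))
    exact_mod_cast this
  have u2 : (Zl.card : ℝ) / M ≤ G.card / M + (B1.card / M + B2.card / M) := by
    rw [← add_div, ← add_div]
    gcongr
    have := (card_le_card hGl).trans ((card_union_le _ _).trans (Nat.add_le_add_left (card_union_le _ _) _))
    exact_mod_cast this
  have l1 := Phi_lip (show a ≤ a + η by linarith)
  have l2 := Phi_lip (show a - η ≤ a by linarith)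
  constructor <;> linarith [h1.1, h1.2, h2.1, h2.2]

end Pool.Agent.K4H18.DM
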